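import Pool.Agent.H31.QV

open Pool.Agent.H31.QV

universe v

theorem Pool.Agent.Results.MP_019b27_al.Main.result :
    ∃ (L : Type) (_ : Lattice L), IsModularLattice L ∧
      ∀ (K : Type v) [CompleteLattice K], InQ L K →
        ∀ f : LatticeHom L K, ¬ Function.Injective f :=
  ⟨L, inferInstance, inferInstance, fun K _ => noComplete K⟩
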